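import Pool.Agent.Lib.MP_e85462_co.U.G6
import Pool.Agent.Lib.MP_e85462_co.U.A1
import Pool.Agent.Lib.MP_e85462_co.L.K5

/-!
# MP_e85462_co: the order of magnitude of `1 - f(k + 1/2)` is `(k + 1/2)^(-7/5)`

`f(w) = N(w) / w^2`, where `N(w)` is the largest number of closed unit squares with pairwise
disjoint interiors that fit inside a closed square of side `w`.
The upper bound for the waste is `SqUp.upper`, the lower bound is `SqLo.lower_pl`.
-/

open MeasureTheory Set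

namespace Pool.Agent.Results.MP_e85462_co.OrderOfMagnitude

/-- `S` is a closed unit square of the plane: any position `(x, y)` of a corner and any angle `θ`
are allowed. -/
def IsUnitSquare (S : Set (ℝ × ℝ)) : Prop :=
  ∃ x y θ : ℝ, S = {z | ∃ a b : ℝ, 0 ≤ a ∧ a ≤ 1 ∧ 0 ≤ b ∧ b ≤ 1 ∧
    z = (x + a * Real.cos θ - b * Real.sin θ, y + a * Real.sin θ + b * Real.cos θ)}

/-- `n` closed unit squares with pairwise disjoint interiors fit inside the closed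
square `[0, w] × [0, w]`. -/
def Fits (w : ℝ) (n : ℕ) : Prop :=
  ∃ S : Fin n → Set (ℝ × ℝ), (∀ i, IsUnitSquare (S i)) ∧ (∀ i, S i ⊆ Icc 0 w ×ˢ Icc 0 w) ∧
    ∀ i j, i ≠ j → Disjoint (interior (S i)) (interior (S j))

/-- The largest number of closed unit squares with pairwise disjoint interiors that fit inside
a closed square of side `w`. -/
noncomputable def N (w : ℝ) : ℕ := sSup {n | Fits w n}

/-- The maximum packing density. -/
noncomputable def f (w : ℝ) : ℝ := N w / w ^ 2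

theorem box_eq (w : ℝ) : SqUp.Box w w = Icc 0 w ×ˢ Icc 0 w := by
  ext z
  simp only [SqUp.Box, mem_ofPred_eq, mem_prod, mem_Icc]
  tauto

theorem volume_box {w : ℝ} (hw : 0 ≤ w) : volume (SqUp.Box w w) = ENNReal.ofReal (w * w) := by
  rw [box_eq, Measure.volume_eq_prod, Measure.prod_prod, Real.volume_Icc, sub_zero,
    ← ENNReal.ofReal_mul hw]

theorem exists_angle {c s : ℝ} (h : c ^ 2 + s ^ 2 = 1) :
    ∃ θ : ℝ, Real.cos θ = c ∧ Real.sin θ = s := by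
  have hn : ‖(⟨c, s⟩ : ℂ)‖ = 1 := by
    rw [Complex.norm_def, Complex.normSq_mk, show c * c + s * s = 1 by nlinarith, Real.sqrt_one]
  have h0 : (⟨c, s⟩ : ℂ) ≠ 0 := by
    intro h0
    rw [h0, norm_zero] at hn
    exact zero_ne_one hn
  refine ⟨Complex.arg ⟨c, s⟩, ?_, ?_⟩
  · rw [Complex.cos_arg h0, hn, div_one]
  · rw [Complex.sin_arg, hn, div_one]

theorem cl_isUnitSquare (P : SqUp.Pl) : IsUnitSquare P.cl := by
  obtain ⟨θ, hc, hs⟩ := exists_angle P.h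
  refine ⟨P.x, P.y, θ, ?_⟩
  ext z
  simp only [SqUp.Pl.cl, mem_ofPred_eq, hc, hs, Prod.ext_iff]

theorem isUnitSquare_cl {S : Set (ℝ × ℝ)} (h : IsUnitSquare S) : ∃ P : SqUp.Pl, P.cl = S := by
  obtain ⟨x, y, θ, rfl⟩ := h
  refine ⟨⟨x, y, Real.cos θ, Real.sin θ, Real.cos_sq_add_sin_sq θ⟩, ?_⟩
  ext z
  simp only [SqUp.Pl.cl, mem_ofPred_eq, Prod.ext_iff]

theorem fits_of_family {w : ℝ} {ι : Type} [Fintype ι] (F : ι → SqUp.Pl)
    (h1 : ∀ i, (F i).cl ⊆ SqUp.Box w w) (h2 : ∀ i j, i ≠ j → Disjoint (F i).op (F j).op) :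
    Fits w (Fintype.card ι) := by
  refine ⟨fun i => (F ((Fintype.equivFin ι).symm i)).cl, fun i => cl_isUnitSquare _, fun i => ?_,
    fun i j hij => ?_⟩
  · rw [← box_eq]
    exact h1 _
  · rw [SqUp.interior_cl, SqUp.interior_cl]
    exact h2 _ _ fun h => hij ((Fintype.equivFin ι).symm.injective h)

theorem family_of_fits {w : ℝ} {n : ℕ} (h : Fits w n) :
    ∃ F : Fin n → SqUp.Pl, (∀ i, (F i).cl ⊆ SqUp.Box w w) ∧
      ∀ i j, i ≠ j → Disjoint (F i).op (F j).op := by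
  obtain ⟨S, h1, h2, h3⟩ := h
  choose F hF using fun i => isUnitSquare_cl (h1 i)
  refine ⟨F, fun i => ?_, fun i j hij => ?_⟩
  · rw [hF, box_eq]
    exact h2 i
  · rw [← SqUp.interior_cl, ← SqUp.interior_cl, hF, hF]
    exact h3 i j hij

theorem fits_zero (w : ℝ) : Fits w 0 :=
  ⟨fun _ => ∅, fun i => i.elim0, fun i => i.elim0, fun i => i.elim0⟩

/-- **The order of magnitude of `1 - f(w)` for `w = k + 1/2` is `w^(-7/5)`.** -/
theorem result : ∃ c C : ℝ, 0 < c ∧ 0 < C ∧ ∀ k : ℕ, 1 ≤ k →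
    IsGreatest {n | Fits ((k : ℝ) + 1 / 2) n} (N ((k : ℝ) + 1 / 2)) ∧
    c * ((k : ℝ) + 1 / 2) ^ (-(7 / 5) : ℝ) ≤ 1 - f ((k : ℝ) + 1 / 2) ∧
    1 - f ((k : ℝ) + 1 / 2) ≤ C * ((k : ℝ) + 1 / 2) ^ (-(7 / 5) : ℝ) := by
  obtain ⟨c, hc, hlow⟩ := SqLo.lower_pl
  refine ⟨c, 10 ^ 7, hc, by norm_num, fun k hk => ?_⟩
  have hup := SqUp.upper k hk
  have hlk := hlow k hk
  have hX : (0 : ℝ) < (k : ℝ) + 1 / 2 := by positivity
  generalize (k : ℝ) + 1 / 2 = X at *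
  have hX2 : (0 : ℝ) < X ^ 2 := by positivity
  have hpow : X ^ (3 / 5 : ℝ) / X ^ 2 = X ^ (-(7 / 5) : ℝ) := by
    rw [← Real.rpow_natCast X 2, ← Real.rpow_sub hX]
    norm_num
  have hbd : ∀ n : ℕ, Fits X n → c * X ^ (3 / 5 : ℝ) ≤ X ^ 2 - n := by
    intro n hn
    obtain ⟨F, h1, h2⟩ := family_of_fits hn
    have := hlk (Fin n) inferInstance F h1 h2
    rwa [Fintype.card_fin] at this
  have hub : BddAbove {n | Fits X n} := by
    refine ⟨⌈X ^ 2⌉₊, fun n hn => ?_⟩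
    have h1 := hbd n hn
    have h2 : (0 : ℝ) ≤ c * X ^ (3 / 5 : ℝ) := by positivity
    have h3 : (n : ℝ) ≤ ⌈X ^ 2⌉₊ := by linarith [Nat.le_ceil (X ^ 2)]
    exact_mod_cast h3
  have hmem : Fits X (N X) := Nat.sSup_mem ⟨0, fits_zero X⟩ hub
  refine ⟨⟨hmem, fun n hn => le_csSup hub hn⟩, ?_, ?_⟩
  · have h1 := hbd _ hmem
    have h2 : c * X ^ (3 / 5 : ℝ) / X ^ 2 ≤ (X ^ 2 - N X) / X ^ 2 := by gcongr
    rw [mul_div_assoc, hpow, sub_div, div_self hX2.ne'] at h2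
    exact h2
  · obtain ⟨h0, ι, _, F, h1, h2, h3⟩ := hup
    have hfit := fits_of_family F h1 h2
    have hle : Fintype.card ι ≤ N X := le_csSup hub hfit
    rw [volume_box hX.le] at h3
    have h4 : X * X ≤ (Fintype.card ι : ℝ) + 10 ^ 7 * X ^ (3 / 5 : ℝ) :=
      (ENNReal.ofReal_le_ofReal_iff (by positivity)).1 h3
    have hle' : (Fintype.card ι : ℝ) ≤ N X := by exact_mod_cast hle
    have h5 : X ^ 2 - N X ≤ 10 ^ 7 * X ^ (3 / 5 : ℝ) := by nlinarith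
    have h6 : (X ^ 2 - N X) / X ^ 2 ≤ 10 ^ 7 * X ^ (3 / 5 : ℝ) / X ^ 2 := by gcongr
    rw [mul_div_assoc, hpow, sub_div, div_self hX2.ne'] at h6
    exact h6

end Pool.Agent.Results.MP_e85462_co.OrderOfMagnitude
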